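import Mathlib

/-!
A lower bound for the sum of the squares of the star transpositions on functions supported on
full cycles.
-/

namespace Pool.Agent.P.MP_ebce6b_al

open Finset Equiv

variable {L : ℕ}

/-- A full cycle. -/
def IsFull (σ : Perm (Fin (L + 1))) : Prop := ∃ e, σ = e * finRotate (L + 1) * e⁻¹

open Classical in
/-- The cycle of `h` through `j`. -/
noncomputable def orb (h : Perm (Fin (L + 1))) (j : Fin (L + 1)) : Finset (Fin (L + 1)) :=
  univ.filter fun x => h.SameCycle j x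

theorem same_rot {b : Fin (L + 1)} (hb : b ≠ 0) (x : Fin (L + 1)) :
    (finRotate (L + 1) * swap 0 b).SameCycle b x ↔ x ∈ Ioc 0 b := by
  set g := finRotate (L + 1) * swap 0 b with hg
  have hb' : 0 < b.val := Fin.pos_iff_ne_zero.2 hb
  have g1 : (g b).val = 1 := by
    have := b.2
    rw [hg, Perm.mul_apply, swap_apply_right, coe_finRotate_of_ne_last]
    · rfl
    · rw [Ne, Fin.ext_iff, Fin.val_last, Fin.val_zero]
      omega
  have g2 : ∀ y : Fin (L + 1), 0 < y.val → y.val < b.val → (g y).val = y.val + 1 := by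
    intro y h1 h2
    have := b.2
    rw [hg, Perm.mul_apply, swap_apply_of_ne_of_ne, coe_finRotate_of_ne_last]
    · rw [Ne, Fin.ext_iff, Fin.val_last]
      omega
    · rw [Ne, Fin.ext_iff, Fin.val_zero]
      omega
    · rw [Ne, Fin.ext_iff]
      omega
  rw [mem_Ioc, Fin.lt_def, Fin.le_def, Fin.val_zero]
  constructor
  · intro h
    obtain ⟨k, -, rfl⟩ := h.exists_pow_eq'
    induction k with
    | zero => simpa using hb'
    | succ k ih =>
      have ih' := ih ⟨k, by simp⟩
      rw [pow_succ', Perm.mul_apply]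
      rcases ih'.2.eq_or_lt with h1 | h1
      · rw [Fin.ext h1, g1]
        omega
      · rw [g2 _ ih'.1 h1]
        omega
  · rintro ⟨h1, h2⟩
    obtain ⟨x, hx⟩ := x
    induction x with
    | zero => exact absurd h1 (lt_irrefl _)
    | succ y ih =>
      rcases Nat.eq_zero_or_pos y with rfl | hy
      · have : (⟨0 + 1, hx⟩ : Fin (L + 1)) = g b := Fin.ext g1.symm
        rw [this]
        exact (Perm.SameCycle.refl g b).apply_right
      · have h3 : y < b.val := h2
        have : (⟨y + 1, hx⟩ : Fin (L + 1)) = g ⟨y, by omega⟩ := Fin.ext (g2 ⟨y, _⟩ hy h3).symm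
        rw [this]
        exact (ih (by omega) hy h3.le).apply_right

theorem rot_shift (e : Perm (Fin (L + 1))) (a : Fin (L + 1)) :
    (e * Equiv.addRight a) * finRotate (L + 1) * (e * Equiv.addRight a)⁻¹ =
      e * finRotate (L + 1) * e⁻¹ := by
  have : (Equiv.addRight a : Perm (Fin (L + 1))) * finRotate (L + 1) =
      finRotate (L + 1) * Equiv.addRight a := by
    ext x
    simp [add_right_comm]
  rw [mul_assoc e, this]
  group

theorem mem_orb0 (e : Perm (Fin (L + 1))) {b : Fin (L + 1)} (hb : b ≠ 0) (x : Fin (L + 1)) :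
    e x ∈ orb (e * finRotate (L + 1) * e⁻¹ * swap (e 0) (e b)) (e b) ↔ x ∈ Ioc 0 b := by
  have : e * finRotate (L + 1) * e⁻¹ * swap (e 0) (e b) =
      e * (finRotate (L + 1) * swap 0 b) * e⁻¹ := by
    rw [swap_apply_apply]
    group
  rw [this, ← same_rot hb, orb, mem_filter, Perm.sameCycle_conj]
  simp

theorem card_orb0 (e : Perm (Fin (L + 1))) {b : Fin (L + 1)} (hb : b ≠ 0) :
    (orb (e * finRotate (L + 1) * e⁻¹ * swap (e 0) (e b)) (e b)).card = b.val := by
  have : orb (e * finRotate (L + 1) * e⁻¹ * swap (e 0) (e b)) (e b) =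
      (Ioc 0 b).map e.toEmbedding := by
    ext y
    obtain ⟨x, rfl⟩ := e.surjective y
    rw [mem_orb0 e hb]
    exact (mem_map' e.toEmbedding).symm
  rw [this, card_map, Fin.card_Ioc]
  rfl

theorem card_orb (e : Perm (Fin (L + 1))) {a b : Fin (L + 1)} (hab : a ≠ b) :
    (orb (e * finRotate (L + 1) * e⁻¹ * swap (e a) (e b)) (e b)).card = (b - a).val := by
  have := card_orb0 (e * Equiv.addRight a) (b := b - a) (sub_ne_zero.2 hab.symm)
  rw [rot_shift] at this
  simpa using this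

theorem IsFull.base {σ : Perm (Fin (L + 1))} (h : IsFull σ) (i : Fin (L + 1)) :
    ∃ e, e 0 = i ∧ σ = e * finRotate (L + 1) * e⁻¹ := by
  obtain ⟨e, rfl⟩ := h
  exact ⟨e * Equiv.addRight (e⁻¹ i), by simp, (rot_shift e _).symm⟩

theorem not_mem_orb {h : Perm (Fin (L + 1))} {i j : Fin (L + 1)} (hij : i ≠ j)
    (hf : IsFull (h * swap i j)) : i ∉ orb h j := by
  obtain ⟨e, rfl, he⟩ := hf.base i
  obtain ⟨b, rfl⟩ := e.surjective j
  have hb : b ≠ 0 := fun hb => hij (by rw [hb])
  have := mem_orb0 e hb 0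
  rw [← he, mul_assoc, swap_mul_self, mul_one] at this
  simpa using this

theorem bracket {σ : Perm (Fin (L + 1))} {j i k : Fin (L + 1)} (hij : i ≠ j) (hkj : k ≠ j)
    (hik : i ≠ k) (h1 : IsFull σ) (h2 : IsFull (σ * swap i j * swap k j)) :
    (orb (σ * swap i j) j).card + (orb (σ * swap j k) k).card + (orb (σ * swap k i) i).card =
      L + 1 := by
  have h3 := not_mem_orb hkj h2
  obtain ⟨e, rfl, rfl⟩ := h1.base i
  obtain ⟨b, rfl⟩ := e.surjective j
  obtain ⟨c, rfl⟩ := e.surjective k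
  have hb : b ≠ 0 := fun hb => hij (by rw [hb])
  have hc : c ≠ 0 := fun hc => hik (by rw [hc])
  have hcb : c ≠ b := fun hc => hkj (by rw [hc])
  rw [mem_orb0 e hb, mem_Ioc, not_and, not_le] at h3
  have h4 : b < c := h3 (Fin.pos_iff_ne_zero.2 hc)
  rw [card_orb0 e hb, card_orb e hcb.symm, card_orb e hc, Fin.sub_val_of_le h4.le, zero_sub,
    Fin.val_neg, if_neg hc]
  have := c.2
  have : b.val < c.val := h4
  omega

theorem diag_sum {σ : Perm (Fin (L + 1))} (h : IsFull σ) (w : ℕ → ℝ) :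
    ∑ j, ∑ i ∈ univ.erase j, w (orb (σ * swap i j) j).card =
      (L + 1) * ∑ t ∈ range L, w (t + 1) := by
  obtain ⟨e, rfl⟩ := h
  rw [← Equiv.sum_comp e]
  rw [Finset.sum_congr rfl (g := fun _ => ∑ t ∈ range L, w (t + 1))]
  · simp
  intro b _
  rw [← Fin.sum_univ_eq_sum_range (fun t => w (t + 1))]
  have e1 : ∑ t : Fin L, w (t + 1) = ∑ t ∈ (univ : Finset (Fin (L + 1))).erase 0, w t := by
    have := Finset.add_sum_erase univ (fun t : Fin (L + 1) => w t) (mem_univ 0)
    rw [Fin.sum_univ_succ] at this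
    exact (add_left_cancel this).symm
  rw [e1]
  symm
  refine Finset.sum_nbij' (fun t => e (b - t)) (fun i => b - e⁻¹ i) ?_ ?_ ?_ ?_ ?_
  · intro t ht
    simpa using ht
  · intro i hi
    simp only [mem_erase, mem_univ, and_true, sub_ne_zero] at hi ⊢
    exact fun h => hi (by rw [h]; simp)
  · simp
  · simp
  · intro t ht
    rw [card_orb e (by simpa using ht)]
    simp

section Sums

variable {u : Perm (Fin (L + 1)) → ℝ}

theorem diag (hu : ∀ σ, u σ ≠ 0 → IsFull σ) (w : ℕ → ℝ) :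
    ∑ j, ∑ h, w (orb h j).card * ∑ i ∈ univ.erase j, u (h * swap i j) ^ 2 =
      (L + 1) * (∑ t ∈ range L, w (t + 1)) * ∑ σ, u σ ^ 2 := by
  have e1 : ∀ j, ∑ h, w (orb h j).card * ∑ i ∈ univ.erase j, u (h * swap i j) ^ 2 =
      ∑ σ, ∑ i ∈ univ.erase j, w (orb (σ * swap i j) j).card * u σ ^ 2 := by
    intro j
    simp only [Finset.mul_sum]
    rw [Finset.sum_comm, Finset.sum_comm (s := (univ : Finset (Perm (Fin (L + 1)))))]
    refine Finset.sum_congr rfl fun i _ => ?_
    rw [← Equiv.sum_comp (Equiv.mulRight (swap i j))]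
    refine Finset.sum_congr rfl fun σ _ => ?_
    simp [mul_assoc]
  simp only [e1]
  rw [Finset.sum_comm, Finset.mul_sum]
  refine Finset.sum_congr rfl fun σ _ => ?_
  simp only [← Finset.sum_mul]
  by_cases h : u σ = 0
  · simp [h]
  · rw [diag_sum (hu σ h)]

/-- The products along a three-cycle. -/
noncomputable def PP (u : Perm (Fin (L + 1)) → ℝ) (σ : Perm (Fin (L + 1))) (j i k : Fin (L + 1)) :
    ℝ :=
  if i ≠ j ∧ k ≠ j ∧ i ≠ k then u σ * u (σ * swap i j * swap k j) else 0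

theorem PP_cyc (σ : Perm (Fin (L + 1))) (j i k : Fin (L + 1)) : PP u σ j i k = PP u σ k j i := by
  simp only [PP]
  by_cases h : i ≠ j ∧ k ≠ j ∧ i ≠ k
  · rw [if_pos h, if_pos ⟨h.2.1.symm, h.2.2, h.1.symm⟩, mul_assoc σ, mul_assoc σ]
    congr 3
    rw [mul_swap_eq_swap_mul (swap j k), swap_apply_of_ne_of_ne h.1 h.2.2, swap_apply_right,
      swap_comm j k]
  · rw [if_neg h, if_neg fun h' => h ⟨h'.2.2.symm, h'.1.symm, h'.2.1⟩]

theorem sq_split (w : ℕ → ℝ) :
    ∑ j, ∑ h, w (orb h j).card * (∑ i ∈ univ.erase j, u (h * swap i j)) ^ 2 =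
      ∑ j, ∑ h, w (orb h j).card * ∑ i ∈ univ.erase j, u (h * swap i j) ^ 2 +
      ∑ σ, ∑ j, ∑ i, ∑ k, w (orb (σ * swap i j) j).card * PP u σ j i k := by
  rw [Finset.sum_comm (s := (univ : Finset (Perm (Fin (L + 1))))), ← Finset.sum_add_distrib]
  refine Finset.sum_congr rfl fun j _ => ?_
  have e1 : ∑ σ, ∑ i, ∑ k, w (orb (σ * swap i j) j).card * PP u σ j i k =
      ∑ h, ∑ i, ∑ k, w (orb h j).card * PP u (h * swap i j) j i k := by
    rw [Finset.sum_comm, Finset.sum_comm (s := (univ : Finset (Perm (Fin (L + 1)))))]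
    refine Finset.sum_congr rfl fun i _ => ?_
    rw [← Equiv.sum_comp (Equiv.mulRight (swap i j))]
    refine Finset.sum_congr rfl fun σ _ => ?_
    simp [mul_assoc]
  rw [e1, ← Finset.sum_add_distrib]
  refine Finset.sum_congr rfl fun h _ => ?_
  simp only [← Finset.mul_sum]
  rw [← mul_add, sq, Finset.sum_mul_sum, ← Finset.add_sum_erase _ _ (mem_univ j)]
  simp only [PP, ne_eq, not_true_eq_false, false_and, if_false, Finset.sum_const_zero, zero_add]
  rw [← Finset.sum_add_distrib]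
  congr 1
  refine Finset.sum_congr rfl fun i hi => ?_
  rw [← Finset.add_sum_erase _ _ hi, sq, ← Finset.sum_filter]
  congr 1
  refine Finset.sum_congr ?_ fun k _ => by simp [mul_assoc]
  ext k
  have := (mem_erase.1 hi).1
  simp only [mem_erase, mem_univ, and_true, mem_filter, true_and, ne_eq]
  tauto

theorem off_third (hu : ∀ σ, u σ ≠ 0 → IsFull σ) (σ : Perm (Fin (L + 1))) :
    3 * ∑ j, ∑ i, ∑ k, ((orb (σ * swap i j) j).card : ℝ) * PP u σ j i k =
      (L + 1) * ∑ j, ∑ i, ∑ k, PP u σ j i k := by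
  have e1 : ∑ j, ∑ i, ∑ k, ((orb (σ * swap i j) j).card : ℝ) * PP u σ j i k =
      ∑ j, ∑ i, ∑ k, ((orb (σ * swap j k) k).card : ℝ) * PP u σ j i k := by
    rw [Finset.sum_comm]
    refine Finset.sum_congr rfl fun j _ => ?_
    rw [Finset.sum_comm]
    refine Finset.sum_congr rfl fun i _ => Finset.sum_congr rfl fun k _ => ?_
    rw [PP_cyc σ j i k]
  have e2 : ∑ j, ∑ i, ∑ k, ((orb (σ * swap j k) k).card : ℝ) * PP u σ j i k =
      ∑ j, ∑ i, ∑ k, ((orb (σ * swap k i) i).card : ℝ) * PP u σ j i k := by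
    rw [Finset.sum_comm]
    refine Finset.sum_congr rfl fun j _ => ?_
    rw [Finset.sum_comm]
    refine Finset.sum_congr rfl fun i _ => Finset.sum_congr rfl fun k _ => ?_
    rw [PP_cyc σ j i k]
  rw [show ∀ x : ℝ, 3 * x = x + x + x from fun x => by ring]
  nth_rewrite 2 [e1]
  nth_rewrite 2 [e1]
  nth_rewrite 2 [e2]
  simp only [← Finset.sum_add_distrib, Finset.mul_sum]
  refine Finset.sum_congr rfl fun j _ => Finset.sum_congr rfl fun i _ =>
    Finset.sum_congr rfl fun k _ => ?_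
  rw [← add_mul, ← add_mul]
  by_cases h : PP u σ j i k = 0
  · simp [h]
  · congr 1
    simp only [PP, ite_eq_right_iff, Classical.not_imp, mul_eq_zero, not_or] at h
    exact_mod_cast bracket h.1.1 h.1.2.1 h.1.2.2 (hu _ h.2.1) (hu _ h.2.2)

theorem pointwise (hu : ∀ σ, u σ ≠ 0 → IsFull σ) (h : Perm (Fin (L + 1))) (j : Fin (L + 1)) :
    0 ≤ ((L : ℝ) - 1 - (orb h j).card) * (∑ i ∈ univ.erase j, u (h * swap i j)) ^ 2 +
      (if (orb h j).card = L then 1 else 0) * ∑ i ∈ univ.erase j, u (h * swap i j) ^ 2 := by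
  classical
  have e1 : ∀ F : ℝ → ℝ, F 0 = 0 → ∑ i ∈ univ.erase j, F (u (h * swap i j)) =
      ∑ i ∈ (univ.erase j).filter (· ∉ orb h j), F (u (h * swap i j)) := by
    intro F hF
    rw [Finset.sum_filter]
    refine Finset.sum_congr rfl fun i hi => ?_
    split_ifs with h1
    · by_cases h2 : u (h * swap i j) = 0
      · rw [h2, hF]
      · exact absurd h1 (not_mem_orb (mem_erase.1 hi).1 (hu _ h2))
    · rfl
  have e2 := sq_sum_le_card_mul_sum_sq (s := (univ.erase j).filter (· ∉ orb h j))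
    (f := fun i => u (h * swap i j))
  rw [← e1 (fun x => x) rfl, ← e1 (fun x => x ^ 2) (by simp)] at e2
  have e3 : ((univ.erase j).filter (· ∉ orb h j)).card + (orb h j).card ≤ L + 1 := by
    rw [← card_union_of_disjoint (disjoint_left.2 fun x hx => (mem_filter.1 hx).2)]
    simpa using card_le_univ (((univ.erase j).filter (· ∉ orb h j)) ∪ orb h j)
  have e4 : 0 ≤ ∑ i ∈ univ.erase j, u (h * swap i j) ^ 2 := by positivity
  have e5 := sq_nonneg (∑ i ∈ univ.erase j, u (h * swap i j))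
  generalize ((univ.erase j).filter (· ∉ orb h j)).card = a at e2 e3
  generalize (orb h j).card = m at e3 ⊢
  split_ifs with h1
  · have : (a : ℝ) ≤ 1 := by exact_mod_cast (by omega : a ≤ 1)
    rw [h1]
    nlinarith
  · rcases lt_or_ge m L with h2 | h2
    · have : (m : ℝ) + 1 ≤ L := by exact_mod_cast h2
      nlinarith
    · have : a = 0 := by omega
      rw [this, Nat.cast_zero, zero_mul] at e2
      rw [le_antisymm e2 e5]
      simp

theorem lower (hL : 3 ≤ L) (hu : ∀ σ, u σ ≠ 0 → IsFull σ) :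
    ((L : ℝ) + 1) * (L + 3) / 4 * ∑ σ, u σ ^ 2 ≤
      ∑ j, ∑ h, (∑ i ∈ univ.erase j, u (h * swap i j)) ^ 2 := by
  have a0 := Finset.sum_nonneg (s := univ) fun j _ =>
    Finset.sum_nonneg (s := univ) fun h _ => pointwise hu h j
  simp only [Finset.sum_add_distrib] at a0
  rw [sq_split (fun m => (L : ℝ) - 1 - m), diag hu (fun m => (L : ℝ) - 1 - m),
    diag hu (fun m => if m = L then 1 else 0)] at a0
  have a1 := sq_split (u := u) (fun _ => 1)
  rw [diag hu (fun _ => 1)] at a1
  simp only [one_mul] at a1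
  have a2 := Finset.sum_congr (rfl : univ = univ) fun σ _ => off_third hu σ
  simp only [← Finset.mul_sum] at a2
  simp only [sub_mul, Finset.sum_sub_distrib, ← Finset.mul_sum, one_mul] at a0
  have s1 : ∑ t ∈ range L, (if t + 1 = L then (1 : ℝ) else 0) = 1 := by
    rw [Finset.sum_eq_single (L - 1), if_pos (by omega)]
    · exact fun t _ ht => if_neg (by omega)
    · exact fun h => absurd (mem_range.2 (by omega)) h
  have s2 : ∀ M : ℕ, ∑ t ∈ range M, ((t + 1 : ℕ) : ℝ) = M * (M + 1) / 2 := by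
    intro M
    induction M with
    | zero => simp
    | succ M ih =>
      rw [sum_range_succ, ih]
      push_cast
      ring
  rw [s1, s2] at a0
  simp only [Finset.sum_const, card_range, nsmul_eq_mul, mul_one] at a0 a1
  rw [a1]
  have hL' : (3 : ℝ) ≤ L := by exact_mod_cast hL
  generalize ∑ σ, ∑ j, ∑ i, ∑ k, PP u σ j i k = O at a0 a2 ⊢
  generalize ∑ σ, ∑ j, ∑ i, ∑ k, ((orb (σ * swap i j) j).card : ℝ) * PP u σ j i k = O' at a0 a2
  generalize ∑ σ, u σ ^ 2 = T at a0 ⊢
  have : 0 ≤ ((L : ℝ) - 2) * (O + 3 / 4 * (L + 1) * (L - 1) * T) := by nlinarith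
  have := nonneg_of_mul_nonneg_right this (by linarith)
  nlinarith

end Sums

end Pool.Agent.P.MP_ebce6b_al
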