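import Pool.Agent.P.MP_ebce6b_al.JM.Real

/-!
The Jucys-Murphy element of one more point has norm at most `n` over the box ideal.
-/

namespace Pool.Agent.P.MP_ebce6b_al

open Finset Equiv

variable {N : ℕ}

/-- The permutation fixing `0` that acts as `h` on the successors. -/
def lf (h : Perm (Fin N)) : Perm (Fin (N + 1)) := Perm.decomposeFin.symm (0, h)

theorem lf_zero (h : Perm (Fin N)) : lf h 0 = 0 := Perm.decomposeFin_symm_apply_zero 0 h

theorem lf_succ (h : Perm (Fin N)) (x : Fin N) : lf h x.succ = (h x).succ := by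
  rw [lf, Perm.decomposeFin_symm_apply_succ]
  simp

theorem lf_mul (g h : Perm (Fin N)) : lf (g * h) = lf g * lf h := by
  ext x
  refine Fin.cases ?_ (fun y => ?_) x <;> simp [lf_zero, lf_succ]

theorem lf_one : lf (1 : Perm (Fin N)) = 1 := by
  ext x
  refine Fin.cases ?_ (fun y => ?_) x <;> simp [lf_zero, lf_succ]

theorem lf_inv (h : Perm (Fin N)) : (lf h)⁻¹ = lf h⁻¹ := by
  rw [inv_eq_iff_mul_eq_one, ← lf_mul, mul_inv_cancel, lf_one]

theorem lf_sign (h : Perm (Fin N)) : Perm.sign (lf h) = Perm.sign h := by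
  rw [lf, Perm.decomposeFin.symm_sign]
  simp

theorem lf_inj {g h : Perm (Fin N)} (e : lf g = lf h) : g = h := by
  have := Perm.decomposeFin.symm.injective e
  simpa using this

theorem lf_swap (i j : Fin N) : lf (swap i j) = swap i.succ j.succ := by
  ext x
  refine Fin.cases ?_ (fun y => ?_) x
  · rw [lf_zero, swap_apply_of_ne_of_ne (Fin.succ_ne_zero i).symm (Fin.succ_ne_zero j).symm]
  · rw [lf_succ, (Fin.succ_injective N).swap_apply]

theorem lf_mul_swap (h : Perm (Fin N)) (i : Fin N) :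
    lf h * swap 0 i.succ = swap 0 (h i).succ * lf h := by
  rw [mul_swap_eq_swap_mul, lf_zero, lf_succ]

theorem sumL (F : Perm (Fin (N + 1)) → ℝ) :
    ∑ σ, F σ = ∑ p : Fin (N + 1), ∑ h : Perm (Fin N), F (swap 0 p * lf h) := by
  rw [← Perm.decomposeFin.symm.sum_comp, Fintype.sum_prod_type]
  refine Finset.sum_congr rfl fun p _ => Finset.sum_congr rfl fun h _ => ?_
  congr 1
  ext x
  refine Fin.cases ?_ (fun y => ?_) x
  · simp [lf_zero]
  · simp [lf_succ]

theorem sumR (F : Perm (Fin (N + 1)) → ℝ) :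
    ∑ σ, F σ = ∑ p : Fin (N + 1), ∑ h : Perm (Fin N), F (lf h * swap 0 p) := by
  rw [← Equiv.sum_comp (Equiv.inv (Perm (Fin (N + 1)))), sumL]
  refine Finset.sum_congr rfl fun p _ => ?_
  rw [← Equiv.sum_comp (Equiv.inv (Perm (Fin N)))]
  refine Finset.sum_congr rfl fun h _ => ?_
  simp [lf_inv]

theorem cnt_lf (n : ℕ) (h : Perm (Fin N)) (p : Fin (N + 1)) :
    cnt n (lf h * swap 0 p) = (if p = 0 then (n : ℚ) else 1) * cnt n h := by
  simp only [cnt]
  rw [← (Fin.consEquiv fun _ : Fin (N + 1) => Fin n).sum_comp, Fintype.sum_prod_type_right,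
    Finset.mul_sum]
  refine Finset.sum_congr rfl fun I _ => ?_
  refine Fin.cases ?_ (fun q => ?_) p
  · have : ∀ c : Fin n, ((Fin.consEquiv fun _ : Fin (N + 1) => Fin n) (c, I) ∘
        (lf h * swap (0 : Fin (N + 1)) 0 : Perm (Fin (N + 1))) =
        (Fin.consEquiv fun _ : Fin (N + 1) => Fin n) (c, I)) ↔ I ∘ h = I := by
      intro c
      constructor
      · intro e
        funext x
        simpa [Fin.consEquiv, lf_succ] using congrFun e x.succ
      · intro e
        funext x
        refine Fin.cases ?_ (fun y => ?_) x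
        · simp [Fin.consEquiv, lf_zero]
        · simpa [Fin.consEquiv, lf_succ] using congrFun e y
    simp only [this]
    split_ifs <;> simp
  · have : ∀ c : Fin n, ((Fin.consEquiv fun _ : Fin (N + 1) => Fin n) (c, I) ∘
        (lf h * swap (0 : Fin (N + 1)) q.succ : Perm (Fin (N + 1))) =
        (Fin.consEquiv fun _ : Fin (N + 1) => Fin n) (c, I)) ↔ (c = I q ∧ I ∘ h = I) := by
      intro c
      constructor
      · intro e
        have e0 : I (h q) = c := by simpa [Fin.consEquiv, lf_succ] using congrFun e 0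
        have e1 : c = I q := by simpa [Fin.consEquiv, lf_zero] using congrFun e q.succ
        refine ⟨e1, ?_⟩
        funext x
        by_cases hx : x = q
        · rw [hx, Function.comp_apply, e0, e1]
        · have := congrFun e x.succ
          rw [Function.comp_apply, Perm.mul_apply, swap_apply_of_ne_of_ne (Fin.succ_ne_zero x)
            (fun h' => hx (Fin.succ_injective _ h'))] at this
          simpa [Fin.consEquiv, lf_succ] using this
      · rintro ⟨rfl, e⟩
        funext x
        refine Fin.cases ?_ (fun y => ?_) x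
        · simpa [Fin.consEquiv, lf_succ] using congrFun e q
        · by_cases hy : y = q
          · simp [Fin.consEquiv, hy, lf_zero]
          · rw [Function.comp_apply, Perm.mul_apply, swap_apply_of_ne_of_ne (Fin.succ_ne_zero y)
              (fun h' => hy (Fin.succ_injective _ h'))]
            simpa [Fin.consEquiv, lf_succ] using congrFun e y
    simp only [this, if_neg (Fin.succ_ne_zero q), one_mul]
    by_cases hI : I ∘ h = I <;> simp [hI]

/-- The Jucys-Murphy element of the point `0`, acting by right translations. -/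
def XO : (Perm (Fin (N + 1)) → ℝ) →ₗ[ℝ] (Perm (Fin (N + 1)) → ℝ) where
  toFun f σ := ∑ i : Fin N, f (σ * swap 0 i.succ)
  map_add' f g := by
    funext σ
    simp [Finset.sum_add_distrib]
  map_smul' c f := by
    funext σ
    simp [Finset.mul_sum]

theorem XO_apply (f : Perm (Fin (N + 1)) → ℝ) (σ : Perm (Fin (N + 1))) :
    XO f σ = ∑ i : Fin N, f (σ * swap 0 i.succ) := rfl

theorem XO_lf (f : Perm (Fin (N + 1)) → ℝ) (σ : Perm (Fin (N + 1))) (h : Perm (Fin N)) :
    XO f (σ * lf h) = ∑ i : Fin N, f (σ * swap 0 i.succ * lf h) := by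
  rw [XO_apply, ← Equiv.sum_comp h (fun i => f (σ * swap 0 i.succ * lf h))]
  refine Finset.sum_congr rfl fun i _ => ?_
  rw [mul_assoc, lf_mul_swap, mul_assoc]

theorem XO_symm (f g : Perm (Fin (N + 1)) → ℝ) : ∑ σ, XO f σ * g σ = ∑ σ, f σ * XO g σ := by
  simp only [XO_apply, Finset.sum_mul, Finset.mul_sum]
  rw [Finset.sum_comm, Finset.sum_comm (s := (univ : Finset (Perm (Fin (N + 1)))))]
  refine Finset.sum_congr rfl fun i _ => ?_
  rw [← Equiv.sum_comp (Equiv.mulRight (swap 0 i.succ))]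
  refine Finset.sum_congr rfl fun σ _ => ?_
  simp [mul_assoc]

theorem eig_lb {n : ℕ} {f : Perm (Fin (N + 1)) → ℝ} (hf : ∀ σ, AntiR n fun h => f (σ * lf h))
    (h0 : f ≠ 0) {μ : ℝ} (h : XO f = μ • f) : -(n : ℝ) ≤ μ := by
  have e1 : gram n f = (n + μ) * ∑ p : Fin (N + 1), gram n fun h => f (swap 0 p * lf h) := by
    have e2 : ∀ τ : Perm (Fin (N + 1)), ∑ g, (cnt n g : ℝ) * (f τ * f (τ * g)) =
        (n + μ) * ∑ k : Perm (Fin N), (cnt n k : ℝ) * (f τ * f (τ * lf k)) := by
      intro τ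
      rw [sumR, Finset.sum_comm, Finset.mul_sum]
      refine Finset.sum_congr rfl fun k _ => ?_
      have h1 := congrFun h (τ * lf k)
      rw [XO_apply, Pi.smul_apply, smul_eq_mul] at h1
      simp only [cnt_lf]
      rw [Fin.sum_univ_succ]
      simp only [if_true, Fin.succ_ne_zero, if_false, one_mul, swap_self, ← mul_assoc τ]
      rw [← Finset.mul_sum, ← Finset.mul_sum, h1]
      have : τ * lf k * Equiv.refl (Fin (N + 1)) = τ * lf k := rfl
      rw [this]
      push_cast
      ring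
    rw [gram]
    simp only [e2]
    rw [← Finset.mul_sum, sumL]
    simp only [gram, lf_mul, mul_assoc]
  have e3 : 0 < ∑ p : Fin (N + 1), gram n fun h => f (swap 0 p * lf h) := by
    refine lt_of_le_of_ne (Finset.sum_nonneg fun p _ => gram_nonneg _ _) fun e => h0 ?_
    have h2 := (Finset.sum_eq_zero_iff_of_nonneg (fun p _ => gram_nonneg n _)).1 e.symm
    have h3 : ∑ σ, f σ ^ 2 = 0 := by
      rw [sumL]
      refine Finset.sum_eq_zero fun p _ => Finset.sum_eq_zero fun k _ => ?_
      have := congrFun (gram_zero (hf _) (h2 p (mem_univ _))) k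
      simp only [Pi.zero_apply] at this
      rw [this]
      simp
    funext σ
    simpa using (Finset.sum_eq_zero_iff_of_nonneg (fun σ _ => sq_nonneg (f σ))).1 h3 σ (mem_univ _)
  have e4 := gram_nonneg n f
  rw [e1] at e4
  have := nonneg_of_mul_nonneg_left e4 e3
  linarith

theorem eig_ub {n : ℕ} {f : Perm (Fin (N + 1)) → ℝ} (hf : ∀ σ, SymmR n fun h => f (σ * lf h))
    (h0 : f ≠ 0) {μ : ℝ} (h : XO f = μ • f) : μ ≤ n := by
  have := eig_lb (n := n) (f := fun σ => ((Perm.sign σ : ℤ) : ℝ) * f σ) (μ := -μ)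
    (fun σ τ B hB => by
      rw [← mul_zero (((Perm.sign σ * Perm.sign τ : ℤˣ) : ℤ) : ℝ), ← hf σ τ B hB, Finset.mul_sum]
      refine Finset.sum_congr rfl fun π _ => ?_
      simp only [Perm.sign_mul, lf_sign]
      rcases Int.units_eq_one_or (Perm.sign π) with h1 | h1 <;> simp [h1])
    (fun e => h0 (by
      funext σ
      have := congrFun e σ
      rcases Int.units_eq_one_or (Perm.sign σ) with h1 | h1 <;> simpa [h1] using this))
    (by
      funext σ
      have h1 := congrFun h σ
      rw [XO_apply, Pi.smul_apply, smul_eq_mul] at h1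
      rw [XO_apply, Pi.smul_apply, smul_eq_mul]
      simp only [Perm.sign_mul, Perm.sign_swap (Fin.succ_ne_zero _).symm]
      rw [← Finset.mul_sum, h1]
      push_cast
      ring)
  linarith

/-- Functions all of whose slices lie in the box ideal. -/
def WW (n N : ℕ) : Submodule ℝ (Perm (Fin (N + 1)) → ℝ) where
  carrier := {f | ∀ σ, (AntiR n fun h => f (σ * lf h)) ∧ SymmR n fun h => f (σ * lf h)}
  add_mem' := fun {a b} ha hb σ => ⟨fun τ B hB => by
      simp only [Pi.add_apply, mul_add, Finset.sum_add_distrib, (ha σ).1 τ B hB, (hb σ).1 τ B hB,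
        add_zero], fun τ B hB => by
      simp only [Pi.add_apply, Finset.sum_add_distrib, (ha σ).2 τ B hB, (hb σ).2 τ B hB,
        add_zero]⟩
  zero_mem' := fun σ => ⟨fun τ B _ => by simp, fun τ B _ => by simp⟩
  smul_mem' := fun c w hw σ => ⟨fun τ B hB => by
      simp only [Pi.smul_apply, smul_eq_mul, mul_left_comm _ c, ← Finset.mul_sum,
        (hw σ).1 τ B hB, mul_zero], fun τ B hB => by
      simp only [Pi.smul_apply, smul_eq_mul, ← Finset.mul_sum, (hw σ).2 τ B hB, mul_zero]⟩

theorem XO_mem {n : ℕ} (f : Perm (Fin (N + 1)) → ℝ) (hf : f ∈ WW n N) : XO f ∈ WW n N := by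
  intro σ
  refine ⟨fun τ B hB => ?_, fun τ B hB => ?_⟩
  · simp only [XO_lf, Finset.mul_sum]
    rw [Finset.sum_comm]
    exact Finset.sum_eq_zero fun i _ => (hf _).1 τ B hB
  · simp only [XO_lf]
    rw [Finset.sum_comm]
    exact Finset.sum_eq_zero fun i _ => (hf _).2 τ B hB

theorem XO_norm {n : ℕ} (f : Perm (Fin (N + 1)) → ℝ) (hf : f ∈ WW n N) :
    ∑ σ, XO f σ ^ 2 ≤ (n : ℝ) ^ 2 * ∑ σ, f σ ^ 2 :=
  spec (WW n N) XO XO_mem XO_symm _ (fun _ _ hg h0 h =>
    sq_le_sq' (eig_lb (fun σ => (hg σ).1) h0 h) (eig_ub (fun σ => (hg σ).2) h0 h)) f hf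

theorem XO_succ (f : Perm (Fin (N + 1)) → ℝ) (h : Perm (Fin N)) (j : Fin N) :
    XO f (lf h * swap 0 j.succ) =
      f (lf h) + ∑ i ∈ univ.erase j, f (lf (h * swap i j) * swap 0 j.succ) := by
  rw [XO_apply, ← Finset.add_sum_erase _ _ (mem_univ j)]
  congr 1
  · simp [mul_assoc]
  · refine Finset.sum_congr rfl fun i hi => ?_
    have hij : i ≠ j := (mem_erase.1 hi).1
    rw [lf_mul, lf_swap, mul_assoc, mul_assoc]
    congr 2
    rw [mul_swap_eq_swap_mul, swap_apply_left, swap_apply_of_ne_of_ne (Fin.succ_ne_zero i)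
      (fun e => hij (Fin.succ_injective _ e)), swap_comm]

theorem upper {n : ℕ} {u : Perm (Fin N) → ℝ} (h1 : AntiR n u) (h2 : SymmR n u) :
    (N : ℝ) ^ 2 * ∑ h, u h ^ 2 + ∑ j, ∑ h, (∑ i ∈ univ.erase j, u (h * swap i j)) ^ 2 ≤
      (n : ℝ) ^ 2 * (N * ∑ h, u h ^ 2) := by
  classical
  let ub : Perm (Fin (N + 1)) → ℝ := fun σ => ∑ h, if σ = lf h then u h else 0
  have a1 : ∀ h, ub (lf h) = u h := fun h => by
    simp only [ub]
    rw [Finset.sum_eq_single h, if_pos rfl]
    · exact fun k _ hk => if_neg fun e => hk (lf_inj e).symm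
    · simp
  have a2 : ∀ σ, σ 0 ≠ 0 → ub σ = 0 := fun σ hσ =>
    Finset.sum_eq_zero fun k _ => if_neg fun e => hσ (by rw [e, lf_zero])
  have a3 : ∀ h (j : Fin N), ub (lf h * swap 0 j.succ) = 0 := fun h j =>
    a2 _ (by simp [lf_succ])
  have a4 : ub ∈ WW n N := by
    intro σ
    by_cases hσ : ∃ τ, σ = lf τ
    · obtain ⟨τ, rfl⟩ := hσ
      simp only [← lf_mul, a1]
      exact ⟨fun k B hB => by simpa only [mul_assoc] using h1 (τ * k) B hB,
        fun k B hB => by simpa only [mul_assoc] using h2 (τ * k) B hB⟩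
    · have : ∀ h, ub (σ * lf h) = 0 := fun h =>
        Finset.sum_eq_zero fun k _ => if_neg fun e => hσ ⟨k * h⁻¹, by
          rw [lf_mul, ← e, ← lf_inv, mul_inv_cancel_right]⟩
      simp only [this]
      exact ⟨fun k B _ => by simp, fun k B _ => by simp⟩
  have b1 : ∀ h, XO ub (lf h) = 0 := fun h => by simp [XO_apply, a3]
  have b2 : ∀ h (j : Fin N), XO ub (lf h * swap 0 j.succ) = u h := fun h j => by
    simp [XO_succ, a1, a3]
  have c1 : ∀ h, XO (XO ub) (lf h) = N * u h := fun h => by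
    rw [XO_apply]
    simp [b2]
  have c2 : ∀ h (j : Fin N), XO (XO ub) (lf h * swap 0 j.succ) =
      ∑ i ∈ univ.erase j, u (h * swap i j) := fun h j => by
    rw [XO_succ]
    simp [b1, b2]
  have := XO_norm (XO ub) (XO_mem ub a4)
  rw [sumR, sumR, Fin.sum_univ_succ, Fin.sum_univ_succ] at this
  have e : ∀ h : Perm (Fin N), lf h * swap (0 : Fin (N + 1)) 0 = lf h := fun h => by
    rw [swap_self]
    rfl
  simp only [e, b1, b2, c1, c2, mul_pow, ← Finset.mul_sum] at this
  simpa using this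

end Pool.Agent.P.MP_ebce6b_al
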