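import Pool.Agent.P.MP_ebce6b_al.Final
import Pool.Agent.P.MP_ebce6b_al.JM.Tower
import Pool.Agent.P.MP_ebce6b_al.JM.Arc

/-!
The bound `(4 n ^ 2 - 2) / 5`.
-/

namespace Pool.Agent.P.MP_ebce6b_al

open Finset Equiv

theorem vanish45 {L n : ℕ} (hL : 3 ≤ L) (h : 4 * n ^ 2 ≤ 5 * L + 6) {u : Perm (Fin (L + 1)) → ℝ}
    (h1 : AntiR n u) (h2 : SymmR n u) (hu : ∀ σ, u σ ≠ 0 → IsFull σ) (σ : Perm (Fin (L + 1))) :
    u σ = 0 := by
  have a1 := upper h1 h2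
  have a2 := lower hL hu
  have a3 : (4 : ℝ) * n ^ 2 ≤ 5 * L + 6 := by exact_mod_cast h
  have a4 : 0 ≤ ∑ σ, u σ ^ 2 := by positivity
  have a5 : (0 : ℝ) < L + 1 := by positivity
  have a6 : ∑ σ, u σ ^ 2 = 0 := by
    push_cast at a1
    generalize ∑ j, ∑ h, (∑ i ∈ univ.erase j, u (h * swap i j)) ^ 2 = Q at a1 a2
    generalize ∑ σ, u σ ^ 2 = T at a1 a2 a4 ⊢
    have a7 := mul_nonneg a5.le a4
    have a8 : ((L : ℝ) + 1) * T ≤ 0 := by nlinarith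
    exact le_antisymm (nonpos_of_mul_nonpos_right a8 a5) a4
  simpa using (Finset.sum_eq_zero_iff_of_nonneg (fun σ _ => sq_nonneg (u σ))).1 a6 σ (mem_univ _)

theorem core45 {U : Type*} [Ring U] [Algebra ℚ U] {L n : ℕ} (hL : 3 ≤ L)
    (h : 4 * n ^ 2 ≤ 5 * L + 6) (S : NonUnitalSubsemiring U) (f : U →ₗ[ℚ] ℚ)
    (hf : ∀ p q : U, ∀ a ∈ S, f (p * a ^ n * q) = 0) (x : Fin L → U) (hx : ∀ k, x k ∈ S) :
    f (List.ofFn x).prod = 0 := by
  have h1 := uf_symm S f hf (Fin.cons 0 x) hx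
  have h2 := uf_anti h1
  have h3 := vanish45 hL h (u := fun σ => (uf f (Fin.cons 0 x) σ : ℝ))
    (fun σ B hB => by
      beta_reduce
      exact_mod_cast h2 σ B hB)
    (fun σ B hB => by
      beta_reduce
      exact_mod_cast h1 σ B hB)
    (fun σ hσ => uf_support (by exact_mod_cast hσ)) (finRotate (L + 1))
  rw [uf_rot] at h3
  simpa [wd] using h3

end Pool.Agent.P.MP_ebce6b_al
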