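import Pool.Agent.P.MP_ebce6b_al.Omega

/-!
Real versions of the box conditions, the Gram form, and a spectral lemma.
-/

namespace Pool.Agent.P.MP_ebce6b_al

open Finset Equiv

variable {N : ℕ}

/-- Real version of `Anti`. -/
def AntiR (n : ℕ) (u : Perm (Fin N) → ℝ) : Prop :=
  ∀ (σ : Perm (Fin N)) (B : Finset (Fin N)), B.card = n + 1 →
    ∑ π ∈ SB B, ((Perm.sign π : ℤ) : ℝ) * u (σ * π) = 0

/-- Real version of `Symm`. -/
def SymmR (n : ℕ) (u : Perm (Fin N) → ℝ) : Prop :=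
  ∀ (σ : Perm (Fin N)) (B : Finset (Fin N)), B.card = n + 1 → ∑ π ∈ SB B, u (σ * π) = 0

/-- Real version of `rho`. -/
noncomputable def rhoR (n : ℕ) (u : Perm (Fin N) → ℝ) (I J : Fin N → Fin n) : ℝ :=
  ∑ σ : Perm (Fin N), if I ∘ σ = J then u σ else 0

theorem sftR {n : ℕ} (v : Perm (Fin N) → ℝ) (hv : AntiR n v) (h : ∀ I J, rhoR n v I J = 0) :
    v = 0 := by
  funext τ
  refine (Module.forall_dual_apply_eq_zero_iff ℚ (v τ)).1 fun φ => ?_
  have := sft (n := n) (fun σ => φ (v σ)) (fun σ B hB => by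
    have h1 := congrArg φ (hv σ B hB)
    rw [map_sum, map_zero] at h1
    refine Eq.trans (Finset.sum_congr rfl fun π _ => ?_) h1
    rw [← zsmul_eq_mul, ← zsmul_eq_mul, map_zsmul]) (fun I J => by
    have h1 := congrArg φ (h I J)
    rw [rhoR, map_sum, map_zero] at h1
    refine Eq.trans (Finset.sum_congr rfl fun π _ => ?_) h1
    split_ifs <;> simp)
  exact congrFun this τ

/-- The Gram form. -/
noncomputable def gram (n : ℕ) (v : Perm (Fin N) → ℝ) : ℝ :=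
  ∑ τ, ∑ g, (cnt n g : ℝ) * (v τ * v (τ * g))

theorem gram_eq (n : ℕ) (v : Perm (Fin N) → ℝ) :
    gram n v = ∑ I : Fin N → Fin n, ∑ J, rhoR n v I J ^ 2 := by
  have e1 : ∀ I : Fin N → Fin n, ∑ J, rhoR n v I J ^ 2 =
      ∑ τ : Perm (Fin N), ∑ σ : Perm (Fin N), if I ∘ σ = I ∘ τ then v τ * v σ else 0 := by
    intro I
    simp only [rhoR, sq, Finset.sum_mul_sum]
    rw [Finset.sum_comm]
    refine Finset.sum_congr rfl fun τ _ => ?_
    rw [Finset.sum_comm]
    refine Finset.sum_congr rfl fun σ _ => ?_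
    rw [Finset.sum_eq_single (I ∘ τ)]
    · simp
    · intro J _ hJ
      rw [if_neg (Ne.symm hJ), zero_mul]
    · simp
  simp only [e1, gram]
  rw [Finset.sum_comm (s := (univ : Finset (Fin N → Fin n)))]
  refine Finset.sum_congr rfl fun τ _ => ?_
  rw [Finset.sum_comm, ← Equiv.sum_comp (Equiv.mulLeft τ)
    (fun σ : Perm (Fin N) => ∑ I : Fin N → Fin n, if I ∘ σ = I ∘ τ then v τ * v σ else 0)]
  refine Finset.sum_congr rfl fun g _ => ?_
  simp only [cnt]
  push_cast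
  rw [Finset.sum_mul, ← (preE n τ).sum_comp]
  refine Finset.sum_congr rfl fun I _ => ?_
  have : (preE n τ I ∘ g = preE n τ I) ↔ (I ∘ (Equiv.mulLeft τ g) = I ∘ τ) := Iff.rfl
  simp only [this]
  split_ifs <;> simp

theorem gram_nonneg (n : ℕ) (v : Perm (Fin N) → ℝ) : 0 ≤ gram n v := by
  rw [gram_eq]
  positivity

theorem gram_zero {n : ℕ} {v : Perm (Fin N) → ℝ} (hv : AntiR n v) (h : gram n v = 0) : v = 0 := by
  rw [gram_eq] at h
  refine sftR v hv fun I J => ?_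
  have h2 := (Finset.sum_eq_zero_iff_of_nonneg (fun I _ =>
    Finset.sum_nonneg fun J _ => sq_nonneg (rhoR n v I J))).1 h I (mem_univ _)
  have h3 := (Finset.sum_eq_zero_iff_of_nonneg (fun J _ =>
    sq_nonneg (rhoR n v I J))).1 h2 J (mem_univ _)
  simpa using h3

/-- A symmetric operator whose eigenvalues on an invariant subspace are bounded has bounded norm
there. -/
theorem spec {ι : Type} [Fintype ι] (W : Submodule ℝ (ι → ℝ)) (T : (ι → ℝ) →ₗ[ℝ] (ι → ℝ))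
    (hW : ∀ f ∈ W, T f ∈ W) (hsym : ∀ f g, ∑ i, T f i * g i = ∑ i, f i * T g i) (c : ℝ)
    (heig : ∀ (μ : ℝ), ∀ f ∈ W, f ≠ 0 → T f = μ • f → μ ^ 2 ≤ c) (f : ι → ℝ) (hf : f ∈ W) :
    ∑ i, T f i ^ 2 ≤ c * ∑ i, f i ^ 2 := by
  let e : EuclideanSpace ℝ ι ≃ₗ[ℝ] (ι → ℝ) := WithLp.linearEquiv 2 ℝ (ι → ℝ)
  let W' : Submodule ℝ (EuclideanSpace ℝ ι) := W.comap e.toLinearMap
  let T0 : EuclideanSpace ℝ ι →ₗ[ℝ] EuclideanSpace ℝ ι :=
    e.symm.toLinearMap ∘ₗ T ∘ₗ e.toLinearMap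
  have hT0 : ∀ x ∈ W', T0 x ∈ W' := fun x hx => by
    simpa [W', T0] using hW _ hx
  let T' : W' →ₗ[ℝ] W' := T0.restrict hT0
  have hs : T'.IsSymmetric := by
    intro x y
    have := hsym (e x.1) (e y.1)
    simp only [Submodule.coe_inner, PiLp.inner_apply, T', LinearMap.coe_restrict_apply]
    simpa [T0, e, mul_comm] using this
  let b := hs.eigenvectorBasis rfl
  let x : W' := ⟨e.symm f, by simpa [W'] using hf⟩
  have h1 : ‖T' x‖ ^ 2 = ∑ i, T f i ^ 2 := by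
    rw [Submodule.coe_norm, EuclideanSpace.real_norm_sq_eq]
    rfl
  have h2 : ‖x‖ ^ 2 = ∑ i, f i ^ 2 := by
    rw [Submodule.coe_norm, EuclideanSpace.real_norm_sq_eq]
    rfl
  rw [← h1, ← h2, ← b.repr.norm_map, ← b.repr.norm_map, EuclideanSpace.real_norm_sq_eq,
    EuclideanSpace.real_norm_sq_eq, Finset.mul_sum]
  refine Finset.sum_le_sum fun k _ => ?_
  have h3 := hs.eigenvectorBasis_apply_self_apply rfl x k
  rw [show b.repr (T' x) k = _ from h3, mul_pow]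
  refine mul_le_mul_of_nonneg_right ?_ (sq_nonneg _)
  have h4 := hs.apply_eigenvectorBasis rfl k
  refine heig _ (e (b k).1) (b k).2 (fun h5 => ?_) ?_
  · have h6 : (b k).1 = 0 := e.injective (by rw [h5, map_zero])
    exact b.orthonormal.ne_zero k (Subtype.ext h6)
  · exact congrArg (fun z : W' => e z.1) h4

end Pool.Agent.P.MP_ebce6b_al
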